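import Mathlib

/-!
# Schur's question on shared vertices of unit regular simplices: failure in all codimensions `≥ 4`

For a nonempty set `A` of coordinates of `ℝ^d` let `vec A` be the multiple of the indicator vector
of `A` with squared length `1/2`. Two such vectors have inner product between `0` and `1/2`; it is
`0` if the sets are disjoint and `1/2` only if they are equal. So two families of pairwise
disjoint nonempty sets of coordinates give two unit regular simplices whose union has diameter at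
most one, and the common vertices are the common members of the families. We use `s` common
singletons, and split the other coordinates into pairs `{x, y}`; each pair is used for one vertex
`{x, y}` of one simplex and two vertices `{x}`, `{y}` of the other one.
-/

set_option autoImplicit false

namespace Pool.Agent.Results.MP_6a54e9_co.AllCodimensions

open Finset

/-- `S` is (the vertex set of) a unit regular `k`-simplex in `R^d`: it has `k + 1` points and any
two distinct points of `S` are at distance `1`. -/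
def IsUnitRegularSimplex {d : ℕ} (k : ℕ) (S : Finset (EuclideanSpace ℝ (Fin d))) : Prop :=
  S.card = k + 1 ∧ ∀ x ∈ S, ∀ y ∈ S, x ≠ y → dist x y = 1

/-- The multiple of the indicator vector of `A` with squared length `1/2`. -/
noncomputable def vec {d : ℕ} (A : Finset (Fin d)) : EuclideanSpace ℝ (Fin d) :=
  WithLp.toLp 2 (fun x => if x ∈ A then (Real.sqrt (2 * (A.card : ℝ)))⁻¹ else 0)

lemma inner_vec {d : ℕ} (A B : Finset (Fin d)) :
    @inner ℝ (EuclideanSpace ℝ (Fin d)) _ (vec A) (vec B) =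
      ((A ∩ B).card : ℝ) *
        ((Real.sqrt (2 * (A.card : ℝ)))⁻¹ * (Real.sqrt (2 * (B.card : ℝ)))⁻¹) := by
  simp only [vec, PiLp.inner_apply, RCLike.inner_apply, conj_trivial]
  have : ∀ x : Fin d, (if x ∈ B then (Real.sqrt (2 * (B.card : ℝ)))⁻¹ else 0) *
      (if x ∈ A then (Real.sqrt (2 * (A.card : ℝ)))⁻¹ else 0) =
      if x ∈ A ∩ B then ((Real.sqrt (2 * (A.card : ℝ)))⁻¹ * (Real.sqrt (2 * (B.card : ℝ)))⁻¹)
        else 0 := by
    intro x
    by_cases hA : x ∈ A <;> by_cases hB : x ∈ B <;> simp [hA, hB, mul_comm]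
  rw [Finset.sum_congr rfl (fun x _ => this x), Finset.sum_ite_mem, Finset.univ_inter,
    Finset.sum_const, nsmul_eq_mul]

lemma sqrt_sq_card {d : ℕ} (A : Finset (Fin d)) :
    Real.sqrt (2 * (A.card : ℝ)) * Real.sqrt (2 * (A.card : ℝ)) = 2 * (A.card : ℝ) :=
  Real.mul_self_sqrt (by positivity)

lemma sqrt_pos_card {d : ℕ} {A : Finset (Fin d)} (hA : A.Nonempty) :
    0 < Real.sqrt (2 * (A.card : ℝ)) := by
  have : 0 < A.card := Finset.card_pos.2 hA
  have : (0 : ℝ) < A.card := by exact_mod_cast this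
  exact Real.sqrt_pos.2 (by positivity)

lemma inner_self_vec {d : ℕ} {A : Finset (Fin d)} (hA : A.Nonempty) :
    @inner ℝ (EuclideanSpace ℝ (Fin d)) _ (vec A) (vec A) = 1 / 2 := by
  rw [inner_vec, Finset.inter_self, ← mul_inv, sqrt_sq_card]
  have : 0 < A.card := Finset.card_pos.2 hA
  have : (0 : ℝ) < A.card := by exact_mod_cast this
  field_simp

lemma inner_vec_nonneg {d : ℕ} (A B : Finset (Fin d)) :
    0 ≤ @inner ℝ (EuclideanSpace ℝ (Fin d)) _ (vec A) (vec B) := by
  rw [inner_vec]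
  positivity

lemma inner_vec_disjoint {d : ℕ} {A B : Finset (Fin d)} (h : Disjoint A B) :
    @inner ℝ (EuclideanSpace ℝ (Fin d)) _ (vec A) (vec B) = 0 := by
  rw [inner_vec, Finset.disjoint_iff_inter_eq_empty.1 h]
  simp

lemma inner_vec_lt {d : ℕ} {A B : Finset (Fin d)} (hA : A.Nonempty) (hB : B.Nonempty)
    (h : A ≠ B) : @inner ℝ (EuclideanSpace ℝ (Fin d)) _ (vec A) (vec B) < 1 / 2 := by
  rw [inner_vec]
  have pA := sqrt_pos_card hA
  have pB := sqrt_pos_card hB
  have qA := sqrt_sq_card A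
  have qB := sqrt_sq_card B
  have cA : (A ∩ B).card ≤ A.card := Finset.card_le_card Finset.inter_subset_left
  have cB : (A ∩ B).card ≤ B.card := Finset.card_le_card Finset.inter_subset_right
  have a0 : 0 < A.card := Finset.card_pos.2 hA
  have b0 : 0 < B.card := Finset.card_pos.2 hB
  have key : (A ∩ B).card * (A ∩ B).card < A.card * B.card := by
    rcases Nat.lt_or_ge (A ∩ B).card A.card with h1 | h1
    · calc (A ∩ B).card * (A ∩ B).card ≤ (A ∩ B).card * B.card := Nat.mul_le_mul_left _ cB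
        _ < A.card * B.card := Nat.mul_lt_mul_of_pos_right h1 b0
    · have e1 : A ∩ B = A := Finset.eq_of_subset_of_card_le Finset.inter_subset_left h1
      have h2 : (A ∩ B).card < B.card := by
        rcases Nat.lt_or_ge (A ∩ B).card B.card with h3 | h3
        · exact h3
        · have e2 : A ∩ B = B := Finset.eq_of_subset_of_card_le Finset.inter_subset_right h3
          exact absurd (e1.symm.trans e2) h
      calc (A ∩ B).card * (A ∩ B).card ≤ A.card * (A ∩ B).card := Nat.mul_le_mul_right _ cA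
        _ < A.card * B.card := Nat.mul_lt_mul_of_pos_left h2 a0
  have key' : ((A ∩ B).card : ℝ) * (A ∩ B).card < A.card * B.card := by exact_mod_cast key
  set p := Real.sqrt (2 * (A.card : ℝ))
  set q := Real.sqrt (2 * (B.card : ℝ))
  set c : ℝ := ((A ∩ B).card : ℝ)
  have hc : 0 ≤ c := Nat.cast_nonneg _
  have h1 : (2 * c) ^ 2 < (p * q) ^ 2 := by
    have : (p * q) ^ 2 = (p * p) * (q * q) := by ring
    rw [this, qA, qB]
    nlinarith
  have h2 : 2 * c < p * q := lt_of_pow_lt_pow_left₀ 2 (by positivity) h1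
  rw [← mul_inv, ← div_eq_mul_inv, div_lt_iff₀ (by positivity)]
  linarith

lemma dist_sq {d : ℕ} (x y : EuclideanSpace ℝ (Fin d))
    (hx : @inner ℝ (EuclideanSpace ℝ (Fin d)) _ x x = 1 / 2)
    (hy : @inner ℝ (EuclideanSpace ℝ (Fin d)) _ y y = 1 / 2) :
    dist x y ^ 2 = 1 - 2 * @inner ℝ (EuclideanSpace ℝ (Fin d)) _ x y := by
  rw [dist_eq_norm, @norm_sub_sq_real]
  rw [real_inner_self_eq_norm_sq] at hx hy
  rw [hx, hy]; ring

lemma dist_vec_disjoint {d : ℕ} {A B : Finset (Fin d)} (hA : A.Nonempty) (hB : B.Nonempty)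
    (h : Disjoint A B) : dist (vec A) (vec B) = 1 := by
  have h1 := dist_sq (vec A) (vec B) (inner_self_vec hA) (inner_self_vec hB)
  rw [inner_vec_disjoint h] at h1
  have h2 : dist (vec A) (vec B) ^ 2 = 1 ^ 2 := by rw [h1]; norm_num
  exact (pow_left_inj₀ dist_nonneg zero_le_one two_ne_zero).1 h2

lemma dist_vec_le {d : ℕ} {A B : Finset (Fin d)} (hA : A.Nonempty) (hB : B.Nonempty) :
    dist (vec A) (vec B) ≤ 1 := by
  have h1 := dist_sq (vec A) (vec B) (inner_self_vec hA) (inner_self_vec hB)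
  have h2 := inner_vec_nonneg A B
  nlinarith [dist_nonneg (x := vec A) (y := vec B)]

lemma vec_injOn {d : ℕ} {A B : Finset (Fin d)} (hA : A.Nonempty) (hB : B.Nonempty)
    (h : vec A = vec B) : A = B := by
  by_contra hne
  have h1 := inner_vec_lt hA hB hne
  rw [← h, inner_self_vec hA] at h1
  exact lt_irrefl _ h1

/-- Two families of pairwise disjoint nonempty sets of coordinates give two unit regular simplices
whose union has diameter at most one. -/
theorem families {d : ℕ} (k m s : ℕ) (P Q : Finset (Finset (Fin d)))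
    (hP : ∀ A ∈ P, A.Nonempty) (hQ : ∀ A ∈ Q, A.Nonempty)
    (hP' : ∀ A ∈ P, ∀ B ∈ P, A ≠ B → Disjoint A B)
    (hQ' : ∀ A ∈ Q, ∀ B ∈ Q, A ≠ B → Disjoint A B)
    (hk : P.card = k + 1) (hm : Q.card = m + 1) (hs : (P ∩ Q).card = s) :
    ∃ S₁ S₂ : Finset (EuclideanSpace ℝ (Fin d)),
      IsUnitRegularSimplex k S₁ ∧ IsUnitRegularSimplex m S₂ ∧
      (∀ x ∈ S₁ ∪ S₂, ∀ y ∈ S₁ ∪ S₂, dist x y ≤ 1) ∧ (S₁ ∩ S₂).card = s := by
  classical
  have inj : Set.InjOn (vec (d := d)) {A | A.Nonempty} :=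
    fun A hA B hB h => vec_injOn hA hB h
  refine ⟨P.image vec, Q.image vec, ⟨?_, ?_⟩, ⟨?_, ?_⟩, ?_, ?_⟩
  · rw [card_image_of_injOn (inj.mono fun A hA => hP A hA), hk]
  · intro x hx y hy hxy
    obtain ⟨A, hA, rfl⟩ := mem_image.1 hx
    obtain ⟨B, hB, rfl⟩ := mem_image.1 hy
    exact dist_vec_disjoint (hP A hA) (hP B hB) (hP' A hA B hB (fun h => hxy (by rw [h])))
  · rw [card_image_of_injOn (inj.mono fun A hA => hQ A hA), hm]
  · intro x hx y hy hxy
    obtain ⟨A, hA, rfl⟩ := mem_image.1 hx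
    obtain ⟨B, hB, rfl⟩ := mem_image.1 hy
    exact dist_vec_disjoint (hQ A hA) (hQ B hB) (hQ' A hA B hB (fun h => hxy (by rw [h])))
  · have hmem : ∀ x ∈ P.image vec ∪ Q.image vec, ∃ A : Finset (Fin d), A.Nonempty ∧ vec A = x := by
      intro x hx
      rcases mem_union.1 hx with hx | hx
      · obtain ⟨A, hA, rfl⟩ := mem_image.1 hx
        exact ⟨A, hP A hA, rfl⟩
      · obtain ⟨A, hA, rfl⟩ := mem_image.1 hx
        exact ⟨A, hQ A hA, rfl⟩
    intro x hx y hy
    obtain ⟨A, hA, rfl⟩ := hmem x hx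
    obtain ⟨B, hB, rfl⟩ := hmem y hy
    exact dist_vec_le hA hB
  · have : P.image vec ∩ Q.image vec = (P ∩ Q).image vec := by
      ext x
      simp only [mem_inter, mem_image]
      constructor
      · rintro ⟨⟨A, hA, rfl⟩, B, hB, h⟩
        have := vec_injOn (hQ B hB) (hP A hA) h
        exact ⟨A, ⟨hA, this ▸ hB⟩, rfl⟩
      · rintro ⟨A, ⟨hA, hB⟩, rfl⟩
        exact ⟨⟨A, hA, rfl⟩, A, hB, rfl⟩
    rw [this, card_image_of_injOn (inj.mono fun A hA => hP A (mem_inter.1 hA).1), hs]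

/-- The coordinates with label `l`. -/
def fib (d : ℕ) (f : ℕ → ℕ) (l : ℕ) : Finset (Fin d) := univ.filter fun x => f x.val = l

lemma mem_fib {d : ℕ} {f : ℕ → ℕ} {l : ℕ} {x : Fin d} : x ∈ fib d f l ↔ f x.val = l := by
  simp [fib]

lemma fib_disjoint {d : ℕ} (f : ℕ → ℕ) {l l' : ℕ} (h : l ≠ l') :
    Disjoint (fib d f l) (fib d f l') := by
  rw [Finset.disjoint_left]
  intro x hx hx'
  rw [mem_fib] at hx hx'
  exact h (hx.symm.trans hx')

lemma fib_inj {d : ℕ} (f : ℕ → ℕ) (a : ℕ) (h : ∀ l < a, ∃ x < d, f x = l) :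
    Set.InjOn (fib d f) (range a : Set ℕ) := by
  intro l hl l' _ e
  obtain ⟨x, hx, hxl⟩ := h l (by simpa using hl)
  have h1 : (⟨x, hx⟩ : Fin d) ∈ fib d f l := mem_fib.2 hxl
  rw [e, mem_fib] at h1
  exact hxl.symm.trans h1

/-- The construction with labels. -/
theorem labels (d a b s : ℕ) (f g : ℕ → ℕ) (ha : 1 ≤ a) (hb : 1 ≤ b)
    (hf : ∀ l < a, ∃ x < d, f x = l) (hg : ∀ l < b, ∃ x < d, g x = l)
    (hsa : s ≤ a) (hsb : s ≤ b)
    (h1 : ∀ l < s, ∀ x < d, f x = l ↔ g x = l)
    (h2 : ∀ l < a, ∀ l' < b, s ≤ l → ∃ x < d, ¬ (f x = l ↔ g x = l')) :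
    ∃ S₁ S₂ : Finset (EuclideanSpace ℝ (Fin d)),
      IsUnitRegularSimplex (a - 1) S₁ ∧ IsUnitRegularSimplex (b - 1) S₂ ∧
      (∀ x ∈ S₁ ∪ S₂, ∀ y ∈ S₁ ∪ S₂, dist x y ≤ 1) ∧ (S₁ ∩ S₂).card = s := by
  classical
  apply families (a - 1) (b - 1) s ((range a).image (fib d f)) ((range b).image (fib d g))
  · intro A hA
    obtain ⟨l, hl, rfl⟩ := mem_image.1 hA
    obtain ⟨x, hx, hxl⟩ := hf l (mem_range.1 hl)
    exact ⟨⟨x, hx⟩, mem_fib.2 hxl⟩
  · intro A hA
    obtain ⟨l, hl, rfl⟩ := mem_image.1 hA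
    obtain ⟨x, hx, hxl⟩ := hg l (mem_range.1 hl)
    exact ⟨⟨x, hx⟩, mem_fib.2 hxl⟩
  · intro A hA B hB hAB
    obtain ⟨l, hl, rfl⟩ := mem_image.1 hA
    obtain ⟨l', hl', rfl⟩ := mem_image.1 hB
    exact fib_disjoint f (fun h => hAB (by rw [h]))
  · intro A hA B hB hAB
    obtain ⟨l, hl, rfl⟩ := mem_image.1 hA
    obtain ⟨l', hl', rfl⟩ := mem_image.1 hB
    exact fib_disjoint g (fun h => hAB (by rw [h]))
  · rw [card_image_of_injOn (fib_inj f a hf), card_range]
    omega
  · rw [card_image_of_injOn (fib_inj g b hg), card_range]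
    omega
  · have : (range a).image (fib d f) ∩ (range b).image (fib d g) = (range s).image (fib d f) := by
      ext A
      simp only [mem_inter, mem_image, mem_range]
      constructor
      · rintro ⟨⟨l, hl, rfl⟩, l', hl', e⟩
        rcases Nat.lt_or_ge l s with hls | hls
        · exact ⟨l, hls, rfl⟩
        · obtain ⟨x, hx, hne⟩ := h2 l hl l' hl' hls
          exfalso
          apply hne
          have h3 : (⟨x, hx⟩ : Fin d) ∈ fib d f l ↔ (⟨x, hx⟩ : Fin d) ∈ fib d g l' := by rw [e]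
          rw [mem_fib, mem_fib] at h3
          exact h3
      · rintro ⟨l, hl, rfl⟩
        refine ⟨⟨l, by omega, rfl⟩, l, by omega, ?_⟩
        ext x
        rw [mem_fib, mem_fib]
        exact (h1 l hl x.val x.isLt).symm
    rw [this, card_image_of_injOn ((fib_inj f a hf).mono (by
      intro x hx
      simp only [coe_range, Set.mem_Iio] at hx ⊢
      omega)), card_range]

/-- In `R^d` there are, for all `1 ≤ b ≤ a ≤ d`, two unit regular simplices with `a` and `b`
vertices whose union has diameter at most one and which share exactly `2 (a + b) - 3 d`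
vertices (truncated subtraction). -/
theorem construction (d a b : ℕ) (hb : 1 ≤ b) (hba : b ≤ a) (had : a ≤ d) :
    ∃ S₁ S₂ : Finset (EuclideanSpace ℝ (Fin d)),
      IsUnitRegularSimplex (a - 1) S₁ ∧ IsUnitRegularSimplex (b - 1) S₂ ∧
      (∀ x ∈ S₁ ∪ S₂, ∀ y ∈ S₁ ∪ S₂, dist x y ≤ 1) ∧
      (S₁ ∩ S₂).card = 2 * (a + b) - 3 * d := by
  obtain ⟨s, hs⟩ : ∃ s, s = 2 * (a + b) - 3 * d := ⟨_, rfl⟩
  obtain ⟨h, hh⟩ : ∃ h, h = (d - s) / 2 := ⟨_, rfl⟩
  obtain ⟨c, hc⟩ : ∃ c, c = (d - s) % 2 := ⟨_, rfl⟩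
  obtain ⟨β, hβ⟩ : ∃ β, β = a - s - h - c := ⟨_, rfl⟩
  obtain ⟨α, hα⟩ : ∃ α, α = h - β := ⟨_, rfl⟩
  have e1 : s + 2 * α + 2 * β + c = d := by omega
  have e2 : a ≤ s + α + 2 * β + c := by omega
  have e3 : b ≤ s + 2 * α + β := by omega
  have e4 : c ≤ 1 := by omega
  rw [← hs]
  apply labels d a b s
    (fun x => if x < s then x else if x < s + 2 * α then s + (x - s) / 2 else x - α)
    (fun x => if x < s + 2 * α then x else s + 2 * α + (x - (s + 2 * α)) / 2)
    (by omega) hb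
  · intro l hl
    rcases Nat.lt_or_ge l s with h1 | h1
    · exact ⟨l, by omega, by simp [h1]⟩
    · rcases Nat.lt_or_ge l (s + α) with h2 | h2
      · refine ⟨s + 2 * (l - s), by omega, ?_⟩
        have h3 : ¬ (s + 2 * (l - s) < s) := by omega
        have h4 : s + 2 * (l - s) < s + 2 * α := by omega
        simp only [h3, h4, if_false, if_true]
        omega
      · refine ⟨l + α, by omega, ?_⟩
        have h3 : ¬ (l + α < s) := by omega
        have h4 : ¬ (l + α < s + 2 * α) := by omega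
        simp only [h3, h4, if_false]
        omega
  · intro l hl
    rcases Nat.lt_or_ge l (s + 2 * α) with h1 | h1
    · exact ⟨l, by omega, by simp [h1]⟩
    · refine ⟨s + 2 * α + 2 * (l - (s + 2 * α)), by omega, ?_⟩
      have h3 : ¬ (s + 2 * α + 2 * (l - (s + 2 * α)) < s + 2 * α) := by omega
      simp only [h3, if_false]
      omega
  · omega
  · omega
  · intro l hl x hx
    split_ifs <;> omega
  · intro l hl l' hl' hsl
    rcases Nat.lt_or_ge l (s + α) with h2 | h2
    · -- a pair of the first family against a singleton of the second family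
      rcases Nat.lt_or_ge l' (s + 2 * α) with h3 | h3
      · by_cases h4 : l' = s + 2 * (l - s)
        · refine ⟨s + 2 * (l - s) + 1, by omega, ?_⟩
          have k1 : ¬ (s + 2 * (l - s) + 1 < s) := by omega
          have k2 : s + 2 * (l - s) + 1 < s + 2 * α := by omega
          simp only [k1, k2, if_false, if_true]
          omega
        · refine ⟨s + 2 * (l - s), by omega, ?_⟩
          have k1 : ¬ (s + 2 * (l - s) < s) := by omega
          have k2 : s + 2 * (l - s) < s + 2 * α := by omega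
          simp only [k1, k2, if_false, if_true]
          omega
      · refine ⟨s + 2 * (l - s), by omega, ?_⟩
        have k1 : ¬ (s + 2 * (l - s) < s) := by omega
        have k2 : s + 2 * (l - s) < s + 2 * α := by omega
        simp only [k1, k2, if_false, if_true]
        omega
    · rcases Nat.lt_or_ge l' (s + 2 * α) with h3 | h3
      · refine ⟨l + α, by omega, ?_⟩
        have k1 : ¬ (l + α < s) := by omega
        have k2 : ¬ (l + α < s + 2 * α) := by omega
        simp only [k1, k2, if_false]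
        omega
      · -- a singleton of the first family against a pair of the second family
        by_cases h4 : l + α = s + 2 * α + 2 * (l' - (s + 2 * α))
        · refine ⟨s + 2 * α + 2 * (l' - (s + 2 * α)) + 1, by omega, ?_⟩
          have k1 : ¬ (s + 2 * α + 2 * (l' - (s + 2 * α)) + 1 < s) := by omega
          have k2 : ¬ (s + 2 * α + 2 * (l' - (s + 2 * α)) + 1 < s + 2 * α) := by omega
          simp only [k1, k2, if_false]
          omega
        · refine ⟨s + 2 * α + 2 * (l' - (s + 2 * α)), by omega, ?_⟩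
          have k1 : ¬ (s + 2 * α + 2 * (l' - (s + 2 * α)) < s) := by omega
          have k2 : ¬ (s + 2 * α + 2 * (l' - (s + 2 * α)) < s + 2 * α) := by omega
          simp only [k1, k2, if_false]
          omega

/-- **Main result.**
(1) The statement of the question is false.
(2) For all `0 ≤ m ≤ k < d` there are unit regular simplices `S₁`, `S₂` in `R^d` of dimensions
`k` and `m` whose union has diameter `1` and which share exactly `max (0, 2 k + 2 m + 4 - 3 d)`
vertices.
(3) Consequently the inequality `|S₁ ∩ S₂| ≥ max (0, k + 2 m - 2 d + 1)` fails for **all**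
`m ≤ k ≤ d - 4` for which its right side is positive, by
`min (k + 2 m - 2 d + 1, d - k - 3)`, which is unbounded. -/
theorem result :
    (¬ ∀ (d k m : ℕ) (S₁ S₂ : Finset (EuclideanSpace ℝ (Fin d))), 2 ≤ d → m ≤ k → k ≤ d →
      IsUnitRegularSimplex k S₁ → IsUnitRegularSimplex m S₂ →
      (∀ x ∈ S₁ ∪ S₂, ∀ y ∈ S₁ ∪ S₂, dist x y ≤ 1) →
      max 0 ((k : ℤ) + 2 * m - 2 * d + 1) ≤
        (((S₁ ∩ S₂ : Finset (EuclideanSpace ℝ (Fin d))).card : ℕ) : ℤ)) ∧
    (∀ d k m : ℕ, m ≤ k → k < d → ∃ S₁ S₂ : Finset (EuclideanSpace ℝ (Fin d)),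
      IsUnitRegularSimplex k S₁ ∧ IsUnitRegularSimplex m S₂ ∧
      (∀ x ∈ S₁ ∪ S₂, ∀ y ∈ S₁ ∪ S₂, dist x y ≤ 1) ∧
      (((S₁ ∩ S₂ : Finset (EuclideanSpace ℝ (Fin d))).card : ℕ) : ℤ) =
        max 0 (2 * (k : ℤ) + 2 * m + 4 - 3 * d)) ∧
    (∀ d k m : ℕ, m ≤ k → k + 4 ≤ d → 0 < (k : ℤ) + 2 * m - 2 * d + 1 →
      ∃ S₁ S₂ : Finset (EuclideanSpace ℝ (Fin d)),
      IsUnitRegularSimplex k S₁ ∧ IsUnitRegularSimplex m S₂ ∧
      (∀ x ∈ S₁ ∪ S₂, ∀ y ∈ S₁ ∪ S₂, dist x y ≤ 1) ∧
      (((S₁ ∩ S₂ : Finset (EuclideanSpace ℝ (Fin d))).card : ℕ) : ℤ) =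
        max 0 ((k : ℤ) + 2 * m - 2 * d + 1) -
          min ((k : ℤ) + 2 * m - 2 * d + 1) ((d : ℤ) - k - 3) ∧
      (((S₁ ∩ S₂ : Finset (EuclideanSpace ℝ (Fin d))).card : ℕ) : ℤ) <
        max 0 ((k : ℤ) + 2 * m - 2 * d + 1)) := by
  have main : ∀ d k m : ℕ, m ≤ k → k < d → ∃ S₁ S₂ : Finset (EuclideanSpace ℝ (Fin d)),
      IsUnitRegularSimplex k S₁ ∧ IsUnitRegularSimplex m S₂ ∧
      (∀ x ∈ S₁ ∪ S₂, ∀ y ∈ S₁ ∪ S₂, dist x y ≤ 1) ∧
      (((S₁ ∩ S₂ : Finset (EuclideanSpace ℝ (Fin d))).card : ℕ) : ℤ) =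
        max 0 (2 * (k : ℤ) + 2 * m + 4 - 3 * d) := by
    intro d k m hmk hkd
    obtain ⟨S₁, S₂, h1, h2, h3, h4⟩ := construction d (k + 1) (m + 1) (by omega) (by omega)
      (by omega)
    refine ⟨S₁, S₂, by simpa using h1, by simpa using h2, h3, ?_⟩
    rw [h4]
    omega
  refine ⟨?_, main, ?_⟩
  · intro hall
    obtain ⟨S₁, S₂, h1, h2, h3, h4⟩ := main 12 8 8 le_rfl (by norm_num)
    have h5 := hall 12 8 8 S₁ S₂ (by norm_num) le_rfl (by norm_num) h1 h2 h3
    rw [h4] at h5
    norm_num at h5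
  intro d k m hmk hkd hpos
  obtain ⟨S₁, S₂, h1, h2, h3, h4⟩ := main d k m hmk (by omega)
  refine ⟨S₁, S₂, h1, h2, h3, ?_, ?_⟩
  · rw [h4]
    omega
  · rw [h4]
    omega

end Pool.Agent.Results.MP_6a54e9_co.AllCodimensions
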